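import Pool.Agent.Helper52.GPM.S

/-!
# Gilbert-Pollak, module MSTF mBd
-/

namespace Pool.Agent.Helper39.GPM

open Relation Classical Pool.Agent.Helper18.GP Pool.Agent.Helper52.GPM

theorem mod_mBd : mBd := by
  intro N V w u hw hu hwu
  have hN : 0 < N := by
    have := w.isLt
    omega
  -- no point of the arc from `w` to `u` is strictly between `u` and `w`
  have key : ∀ v ∈ Arc V w u, ¬ Ccw u v w := by
    intro v hv hc
    rw [mem_Arc] at hv
    have h1 := hv.2
    obtain ⟨h2, h3⟩ := hc
    rcases lt_or_eq_of_le h1 with h | h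
    · have h4 := cyc_change_gt h
      have h5 := cyc_back (a := w) (b := u) (fun h => hwu h.symm)
      omega
    · have h4 := cyc_inj h
      rw [h4, cyc_self] at h2
      exact lt_irrefl _ h2
  refine ⟨?_, ?_, ?_⟩
  · rintro x y ⟨-, -, hxy, h⟩ hx hy
    refine ⟨hx, hy, hxy, ?_⟩
    rcases h with h | h
    · exact Or.inl fun v hv => h v (Arc_sub V w u hv)
    · exact Or.inr fun v hv => h v (Arc_sub V w u hv)
  · exact ⟨left_mem_Arc hw, right_mem_Arc hu, hwu, Or.inr key⟩
  · exact ⟨right_mem_Arc hu, left_mem_Arc hw, fun h => hwu h.symm, Or.inl key⟩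

end Pool.Agent.Helper39.GPM
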